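import Pool.Agent.X193.QPOL.Nary

/-!
# MP_88d3f6_lc: automatic homeomorphicity of the polymorphism clone of `(ℚ; <)`

Every clone isomorphism from `Pol(ℚ; <)` onto a closed clone on a countable set is a
homeomorphism.
-/

namespace Pool.Agent.Results.MP_88d3f6_lc.AutoHomeoPolQ

open Filter Topology Pool.Agent.X193.QPOL

/-- The finitary operations on `α`: the pair `⟨n, f⟩` is the operation `f` of arity `n + 1`. -/
abbrev Op (α : Type) : Type := Σ n : ℕ, ((Fin (n + 1) → α) → α)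

/-- The topology of pointwise convergence (`α` is discrete, the operations of a fixed arity carry
the product topology, and `Op α` carries the sum topology). -/
@[reducible] def opTop (α : Type) : TopologicalSpace (Op α) :=
  @instTopologicalSpaceSigma ℕ (fun n => (Fin (n + 1) → α) → α)
    (fun n => @Pi.topologicalSpace (Fin (n + 1) → α) (fun _ => α) (fun _ => ⊥))

/-- Clones: sets of operations which contain the projections and are closed under composition. -/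
structure IsClone {α : Type} (C : Set (Op α)) : Prop where
  proj : ∀ (n : ℕ) (i : Fin (n + 1)), (⟨n, fun x => x i⟩ : Op α) ∈ C
  comp : ∀ (n m : ℕ) (f : (Fin (n + 1) → α) → α) (g : Fin (n + 1) → (Fin (m + 1) → α) → α),
    (⟨n, f⟩ : Op α) ∈ C → (∀ i, (⟨m, g i⟩ : Op α) ∈ C) →
      (⟨m, fun x => f fun i => g i x⟩ : Op α) ∈ C

/-- Clone isomorphisms: bijections which preserve the arities, the projections and
composition. -/
structure IsCloneIso {α β : Type} (C : Set (Op α)) (D : Set (Op β)) (ξ : C → D) : Prop where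
  bij : Function.Bijective ξ
  arity : ∀ f : C, (ξ f).1.1 = f.1.1
  proj : ∀ (n : ℕ) (i : Fin (n + 1)) (h : (⟨n, fun x => x i⟩ : Op α) ∈ C),
    (ξ ⟨⟨n, fun x => x i⟩, h⟩).1 = ⟨n, fun x => x i⟩
  comp : ∀ (n m : ℕ) (f : (Fin (n + 1) → α) → α) (g : Fin (n + 1) → (Fin (m + 1) → α) → α)
    (hf : (⟨n, f⟩ : Op α) ∈ C) (hg : ∀ i, (⟨m, g i⟩ : Op α) ∈ C)
    (hfg : (⟨m, fun x => f fun i => g i x⟩ : Op α) ∈ C)
    (f' : (Fin (n + 1) → β) → β) (g' : Fin (n + 1) → (Fin (m + 1) → β) → β),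
    (ξ ⟨⟨n, f⟩, hf⟩).1 = ⟨n, f'⟩ → (∀ i, (ξ ⟨⟨m, g i⟩, hg i⟩).1 = ⟨m, g' i⟩) →
      (ξ ⟨⟨m, fun x => f fun i => g i x⟩, hfg⟩).1 = ⟨m, fun x => f' fun i => g' i x⟩

/-- Automatic homeomorphicity: every clone isomorphism from `C` onto a closed clone on a countable
set `Ω` is a homeomorphism. -/
def AutoHomeo {α : Type} (C : Set (Op α)) : Prop :=
  ∀ (Ω : Type) [Countable Ω] (D : Set (Op Ω)), IsClone D → IsClosed[opTop Ω] D →
    ∀ ξ : C → D, IsCloneIso C D ξ →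
      @IsHomeomorph C D (@instTopologicalSpaceSubtype _ (· ∈ C) (opTop α))
        (@instTopologicalSpaceSubtype _ (· ∈ D) (opTop Ω)) ξ

/-- The clone `Pol(ℚ; <)`. -/
def PolQlt : Set (Op ℚ) :=
  {F | ∀ a b : Fin (F.1 + 1) → ℚ, (∀ i, a i < b i) → F.2 a < F.2 b}

section topology

variable {α : Type}

theorem mem_nhds_pi {A : Type} (f : A → α) (S : Set (A → α)) :
    S ∈ @nhds _ (@Pi.topologicalSpace A (fun _ => α) (fun _ => ⊥)) f ↔
      ∃ W : Finset A, ∀ g : A → α, (∀ a ∈ W, g a = f a) → g ∈ S := by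
  classical
  let _ : TopologicalSpace α := ⊥
  have : DiscreteTopology α := ⟨rfl⟩
  rw [nhds_pi, Filter.mem_pi']
  constructor
  · rintro ⟨I, t, ht, hts⟩
    refine ⟨I, fun g hg => hts fun i hi => ?_⟩
    rw [hg i hi]
    exact mem_of_mem_nhds (ht i)
  · rintro ⟨W, hW⟩
    refine ⟨W, fun a => {f a}, fun i => by rw [nhds_discrete]; exact rfl, fun g hg => hW g ?_⟩
    intro a ha
    exact hg a ha

theorem mem_nhds_op (n : ℕ) (f : (Fin (n + 1) → α) → α) (S : Set (Op α)) :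
    S ∈ @nhds _ (opTop α) (⟨n, f⟩ : Op α) ↔
      ∃ W : Finset (Fin (n + 1) → α), ∀ g : (Fin (n + 1) → α) → α,
        (∀ a ∈ W, g a = f a) → (⟨n, g⟩ : Op α) ∈ S := by
  have h1 := @Sigma.nhds_mk ℕ (fun n => (Fin (n + 1) → α) → α)
    (fun n => @Pi.topologicalSpace (Fin (n + 1) → α) (fun _ => α) (fun _ => ⊥)) n f
  rw [h1, Filter.mem_map]
  exact mem_nhds_pi f _

theorem mem_of_closed {C : Set (Op α)} (hC : IsClosed[opTop α] C) {n : ℕ}
    {f : (Fin (n + 1) → α) → α}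
    (h : ∀ W : Finset (Fin (n + 1) → α), ∃ g, (⟨n, g⟩ : Op α) ∈ C ∧ ∀ a ∈ W, f a = g a) :
    (⟨n, f⟩ : Op α) ∈ C := by
  let _ := opTop α
  rw [← hC.closure_eq, mem_closure_iff_nhds]
  intro S hS
  obtain ⟨W, hW⟩ := (mem_nhds_op n f S).1 hS
  obtain ⟨g, hg, hgW⟩ := h W
  exact ⟨⟨n, g⟩, hW g fun a ha => (hgW a ha).symm, hg⟩

theorem closed_of {C : Set (Op α)} (h : ∀ (n : ℕ) (f : (Fin (n + 1) → α) → α),
    (∀ W : Finset (Fin (n + 1) → α), ∃ g, (⟨n, g⟩ : Op α) ∈ C ∧ ∀ a ∈ W, f a = g a) →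
      (⟨n, f⟩ : Op α) ∈ C) : IsClosed[opTop α] C := by
  let _ := opTop α
  refine isClosed_of_closure_subset ?_
  rintro ⟨n, f⟩ hf
  refine h n f fun W => ?_
  rw [mem_closure_iff_nhds] at hf
  have h1 : {F : Op α | ∃ g, F = ⟨n, g⟩ ∧ ∀ a ∈ W, g a = f a} ∈ 𝓝 (⟨n, f⟩ : Op α) :=
    (mem_nhds_op n f _).2 ⟨W, fun g hg => ⟨g, rfl, hg⟩⟩
  obtain ⟨F, ⟨g, rfl, hg⟩, hF⟩ := hf _ h1
  exact ⟨g, hF, fun a ha => (hg a ha).symm⟩

end topology

/-- continuity of a map between sets of operations which preserves arities -/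
theorem continuous_of {α β : Type} {C : Set (Op α)} {D : Set (Op β)} (φ : C → D)
    (X : ∀ n, ((Fin (n + 1) → α) → α) → ((Fin (n + 1) → β) → β))
    (hX : ∀ n f (h : (⟨n, f⟩ : Op α) ∈ C), (φ ⟨⟨n, f⟩, h⟩).1 = ⟨n, X n f⟩)
    (hc : ∀ n f, (⟨n, f⟩ : Op α) ∈ C → ∀ y : Fin (n + 1) → β,
      ∃ W : Finset (Fin (n + 1) → α), ∀ g, (⟨n, g⟩ : Op α) ∈ C → (∀ a ∈ W, g a = f a) →
        X n g y = X n f y) :
    @Continuous C D (@instTopologicalSpaceSubtype _ (· ∈ C) (opTop α))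
      (@instTopologicalSpaceSubtype _ (· ∈ D) (opTop β)) φ := by
  classical
  let _ := opTop α
  let _ := opTop β
  rw [continuous_iff_continuousAt]
  rintro ⟨⟨n, f⟩, hf⟩
  rw [ContinuousAt, tendsto_subtype_rng, nhds_subtype_eq_comap]
  intro S hS
  have h1 : S ∈ 𝓝 (⟨n, X n f⟩ : Op β) := by rw [← hX n f hf]; exact hS
  obtain ⟨W, hW⟩ := (mem_nhds_op n (X n f) S).1 h1
  choose V hV using hc n f hf
  refine ⟨{F : Op α | ∃ g, F = ⟨n, g⟩ ∧ ∀ a ∈ W.biUnion V, g a = f a}, ?_, ?_⟩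
  · exact (mem_nhds_op n f _).2 ⟨W.biUnion V, fun g hg => ⟨g, rfl, hg⟩⟩
  · rintro ⟨F, hF⟩ ⟨g, hFg, hg⟩
    change F = ⟨n, g⟩ at hFg
    subst hFg
    change (φ ⟨⟨n, g⟩, hF⟩).1 ∈ S
    rw [hX n g hF]
    refine hW _ fun y hy => hV y g hF fun a ha => hg a (Finset.mem_biUnion.2 ⟨y, hy, ha⟩)

theorem isClone_PolQlt : IsClone PolQlt :=
  ⟨fun _ i _ _ hab => hab i, fun _ _ _ _ hf hg _ _ hab => hf _ _ fun i => hg i _ _ hab⟩

theorem isClosed_PolQlt : IsClosed[opTop ℚ] PolQlt := by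
  classical
  refine closed_of fun n f hf a b hab => ?_
  obtain ⟨g, hg, hgf⟩ := hf {a, b}
  change f a < f b
  rw [hgf a (by simp), hgf b (by simp)]
  exact hg a b hab

/-- a pair of elements -/
def pr {Y : Type} (a b : Y) (i : Fin (1 + 1)) : Y := if i = 0 then a else b

/-- Automatic homeomorphicity of `Pol(ℚ; <)`. -/
theorem autoHomeo_PolQlt : AutoHomeo PolQlt := by
  classical
  intro Y _ D hD hDc ξ hξ
  have hC := isClone_PolQlt
  -- the maps in the single arities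
  have hex : ∀ (n : ℕ) (f : (Fin (n + 1) → ℚ) → ℚ), ∃ f' : (Fin (n + 1) → Y) → Y,
      ∀ h : (⟨n, f⟩ : Op ℚ) ∈ PolQlt, (ξ ⟨⟨n, f⟩, h⟩).1 = ⟨n, f'⟩ := by
    intro n f
    by_cases h : (⟨n, f⟩ : Op ℚ) ∈ PolQlt
    · have h1 := hξ.arity ⟨⟨n, f⟩, h⟩
      obtain ⟨f', hf'⟩ : ∃ f', (ξ ⟨⟨n, f⟩, h⟩).1 = ⟨n, f'⟩ := by
        generalize (ξ ⟨⟨n, f⟩, h⟩).1 = G at h1
        obtain ⟨m, g⟩ := G
        change m = n at h1
        subst h1
        exact ⟨g, rfl⟩
      exact ⟨f', fun _ => hf'⟩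
    · exact ⟨fun y => y 0, fun h' => absurd h' h⟩
  choose X hX using hex
  have hXD : ∀ n f, (⟨n, f⟩ : Op ℚ) ∈ PolQlt → (⟨n, X n f⟩ : Op Y) ∈ D := by
    intro n f h
    rw [← hX n f h]
    exact (ξ ⟨⟨n, f⟩, h⟩).2
  have hXinj : ∀ n f g, (⟨n, f⟩ : Op ℚ) ∈ PolQlt → (⟨n, g⟩ : Op ℚ) ∈ PolQlt →
      X n f = X n g → f = g := by
    intro n f g hf hg hfg
    have h1 : ξ ⟨⟨n, f⟩, hf⟩ = ξ ⟨⟨n, g⟩, hg⟩ := by
      apply Subtype.ext
      rw [hX n f hf, hX n g hg, hfg]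
    have h2 := hξ.bij.1 h1
    have h3 : (⟨n, f⟩ : Op ℚ) = ⟨n, g⟩ := congrArg Subtype.val h2
    exact eq_of_heq (Sigma.mk.inj_iff.1 h3).2
  have hXsurj : ∀ n f', (⟨n, f'⟩ : Op Y) ∈ D → ∃ f, (⟨n, f⟩ : Op ℚ) ∈ PolQlt ∧ X n f = f' := by
    intro n f' hf'
    obtain ⟨⟨⟨m, f⟩, hf⟩, h1⟩ := hξ.bij.2 ⟨⟨n, f'⟩, hf'⟩
    have h2 : (⟨m, X m f⟩ : Op Y) = ⟨n, f'⟩ := by
      rw [← hX m f hf, h1]
    obtain ⟨h3, h4⟩ := Sigma.mk.inj_iff.1 h2
    subst h3
    exact ⟨f, hf, eq_of_heq h4⟩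
  have hXproj : ∀ n (i : Fin (n + 1)), X n (fun x => x i) = fun x => x i := by
    intro n i
    have h1 := hξ.proj n i (hC.proj n i)
    rw [hX n _ (hC.proj n i)] at h1
    exact eq_of_heq (Sigma.mk.inj_iff.1 h1).2
  have hXcomp : ∀ n m (f : (Fin (n + 1) → ℚ) → ℚ) (g : Fin (n + 1) → (Fin (m + 1) → ℚ) → ℚ),
      (⟨n, f⟩ : Op ℚ) ∈ PolQlt → (∀ i, (⟨m, g i⟩ : Op ℚ) ∈ PolQlt) →
      X m (fun x => f fun i => g i x) = fun x => X n f fun i => X m (g i) x := by
    intro n m f g hf hg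
    have hfg := hC.comp n m f g hf hg
    have h1 := hξ.comp n m f g hf hg hfg (X n f) (fun i => X m (g i)) (hX n f hf)
      (fun i => hX m (g i) (hg i))
    rw [hX m _ hfg] at h1
    exact eq_of_heq (Sigma.mk.inj_iff.1 h1).2
  -- the unary operations
  let u : (ℚ → ℚ) → (Fin (0 + 1) → ℚ) → ℚ := fun f x => f (x 0)
  have hu : ∀ f : ℚ → ℚ, StrictMono f → (⟨0, u f⟩ : Op ℚ) ∈ PolQlt :=
    fun f hf a b hab => hf (hab 0)
  let θ : (ℚ → ℚ) → Y → Y := fun f y => X 0 (u f) fun _ => y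
  have hθcomp : ∀ f g : ℚ → ℚ, StrictMono f → StrictMono g → θ (f ∘ g) = θ f ∘ θ g := by
    intro f g hf hg
    funext y
    have h1 := hXcomp 0 0 (u f) (fun _ => u g) (hu f hf) fun _ => hu g hg
    exact congrFun h1 fun _ => y
  have hθid : θ id = id := by
    funext y
    exact congrFun (hXproj 0 0) fun _ => y
  have hsub : ∀ {Z : Type} (x : Fin (0 + 1) → Z), (fun _ => x 0) = x := fun x => funext fun i => by
    exact congrArg x (Fin.ext (by omega))
  -- the binary minimum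
  let mn : (Fin (1 + 1) → ℚ) → ℚ := fun x => min (x 0) (x 1)
  have hmn : (⟨1, mn⟩ : Op ℚ) ∈ PolQlt := fun a b hab => min_lt_min (hab 0) (hab 1)
  let w : Y → Y → Y := fun a b => X 1 mn (pr a b)
  have hmin : ∀ m (g0 g1 : (Fin (m + 1) → ℚ) → ℚ), (⟨m, g0⟩ : Op ℚ) ∈ PolQlt →
      (⟨m, g1⟩ : Op ℚ) ∈ PolQlt →
      X m (fun x => min (g0 x) (g1 x)) = fun x => w (X m g0 x) (X m g1 x) := by
    intro m g0 g1 h0 h1
    have h2 := hXcomp 1 m mn (fun i => if i = 0 then g0 else g1) hmn (fun i => by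
      by_cases hi : i = 0
      · rw [if_pos hi]; exact h0
      · rw [if_neg hi]; exact h1)
    have h3 : (fun x : Fin (m + 1) → ℚ => mn fun i => (if i = 0 then g0 else g1) x) =
        fun x => min (g0 x) (g1 x) := by
      funext x
      simp [mn]
    rw [h3] at h2
    rw [h2]
    funext x
    change X 1 mn _ = X 1 mn _
    congr 1
    funext i
    unfold pr
    by_cases hi : i = 0
    · rw [if_pos hi, if_pos hi]
    · rw [if_neg hi, if_neg hi]
  have hw2 : ∀ a b, w a b = w b a := by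
    intro a b
    have h1 := hmin 1 (fun x => x 0) (fun x => x 1) (hC.proj 1 0) (hC.proj 1 1)
    have h2 := hmin 1 (fun x => x 1) (fun x => x 0) (hC.proj 1 1) (hC.proj 1 0)
    have h3 : (fun x : Fin (1 + 1) → ℚ => min (x 0) (x 1)) = fun x => min (x 1) (x 0) :=
      funext fun x => min_comm _ _
    rw [h3, h2, hXproj, hXproj] at h1
    exact (congrFun h1 (pr a b)).symm
  have hw3 : ∀ a b c, w (w a b) c = w a (w b c) := by
    intro a b c
    have m01 : (⟨2, fun x => min (x 0) (x 1)⟩ : Op ℚ) ∈ PolQlt :=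
      fun a b hab => min_lt_min (hab 0) (hab 1)
    have m12 : (⟨2, fun x => min (x 1) (x 2)⟩ : Op ℚ) ∈ PolQlt :=
      fun a b hab => min_lt_min (hab 1) (hab 2)
    have h1 := hmin 2 (fun x => min (x 0) (x 1)) (fun x => x 2) m01 (hC.proj 2 2)
    have h2 := hmin 2 (fun x => x 0) (fun x => min (x 1) (x 2)) (hC.proj 2 0) m12
    have h3 : (fun x : Fin (2 + 1) → ℚ => min (min (x 0) (x 1)) (x 2)) =
        fun x => min (x 0) (min (x 1) (x 2)) := funext fun x => min_assoc _ _ _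
    rw [h3, h2, hmin 2 (fun x => x 0) (fun x => x 1) (hC.proj 2 0) (hC.proj 2 1),
      hmin 2 (fun x => x 1) (fun x => x 2) (hC.proj 2 1) (hC.proj 2 2),
      hXproj, hXproj, hXproj] at h1
    exact (congrFun h1 (fun i => if i = 0 then a else if i = 1 then b else c)).symm
  let le : Y → Y → Prop := fun a b => w a b = a
  have hmono : ∀ f g : ℚ → ℚ, StrictMono f → StrictMono g → (∀ z, f z ≤ g z) →
      ∀ y, le (θ f y) (θ g y) := by
    intro f g hf hg hfg y
    have h1 := hmin 0 (u f) (u g) (hu f hf) (hu g hg)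
    have h2 : (fun x : Fin (0 + 1) → ℚ => min (u f x) (u g x)) = u f :=
      funext fun x => min_eq_left (hfg _)
    rw [h2] at h1
    exact (congrFun h1 fun _ => y).symm
  have hanti : ∀ a b, le a b → le b a → a = b := by
    intro a b hab hba
    have h1 : w a b = a := hab
    have h2 : w b a = b := hba
    rw [← h1, hw2, h2]
  have htrans : ∀ a b c, le a b → le b c → le a c := by
    intro a b c hab hbc
    change w a c = a
    have h1 : w a b = a := hab
    have h2 : w b c = b := hbc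
    rw [← h1, hw3, h2]
  have hsupp : ∀ y, ∃ t, QSupp θ t y := by
    intro y
    refine qsupp hθcomp hθid hmono hanti htrans ?_ ?_ y
    · intro f g hf hg hfg
      have h1 : X 0 (u f) = X 0 (u g) := by
        funext x
        have h2 := congrFun hfg (x 0)
        change X 0 (u f) (fun _ => x 0) = X 0 (u g) (fun _ => x 0) at h2
        rwa [hsub x] at h2
      have h3 := hXinj 0 _ _ (hu f hf) (hu g hg) h1
      funext n
      exact congrFun h3 fun _ => n
    · intro F hF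
      have h1 : (⟨0, fun x => F (x 0)⟩ : Op Y) ∈ D := by
        refine mem_of_closed hDc fun W => ?_
        obtain ⟨f, hf, hfW⟩ := hF (W.image fun x => x 0)
        refine ⟨X 0 (u f), hXD 0 _ (hu f hf), fun a ha => ?_⟩
        have h2 := hfW _ (Finset.mem_image_of_mem _ ha)
        change F (a 0) = X 0 (u f) (fun _ => a 0) at h2
        rwa [hsub a] at h2
      obtain ⟨f, hf, hfF⟩ := hXsurj 0 _ h1
      have h2 : u (fun n => f fun _ => n) = f := by
        funext x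
        change f (fun _ => x 0) = f x
        rw [hsub x]
      refine ⟨fun n => f fun _ => n, fun a b hab => hf _ _ fun _ => hab, ?_⟩
      funext y
      change X 0 (u fun n => f fun _ => n) (fun _ => y) = F y
      rw [h2, hfF]
  have hact : ∀ n, QAct θ (X n) := by
    intro n
    have hr : ∀ c : ℚ → ℚ, StrictMono c → ∀ i : Fin (n + 1),
        (⟨n, fun x : Fin (n + 1) → ℚ => c (x i)⟩ : Op ℚ) ∈ PolQlt ∧
          X n (fun x : Fin (n + 1) → ℚ => c (x i)) = fun x => θ c (x i) := by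
      intro c hc i
      refine ⟨fun a b hab => hc (hab i), ?_⟩
      have h1 := hXcomp 0 n (u c) (fun _ x => x i) (hu c hc) fun _ => hC.proj n i
      rw [hXproj] at h1
      exact h1
    exact {
      hcomp := hθcomp
      hid := hθid
      hsupp := hsupp
      left_eq := fun l hl f hf y => by
        have h1 := hXcomp 0 n (u l) (fun _ => f) (hu l hl) fun _ => hf
        exact congrFun h1 y
      right_eq := fun c hc f hf y => by
        have h1 := hXcomp n n f (fun i x => c (x i)) hf fun i => (hr c hc i).1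
        have h2 := congrFun h1 y
        simp only [(hr c hc _).2] at h2
        exact h2 }
  -- continuity
  let _ : TopologicalSpace (Op ℚ) := opTop ℚ
  let _ : TopologicalSpace (Op Y) := opTop Y
  have hcont : Continuous ξ := by
    refine continuous_of ξ X hX fun n f hf y => ?_
    obtain ⟨A, hA⟩ := qcont (hact n) 0 y
    have hfin : {b : Fin (n + 1) → ℚ | ∀ i, b i ∈ A}.Finite :=
      Set.Finite.pi' (ι := Fin (n + 1)) (t := fun _ => (A : Set ℚ)) (fun _ => A.finite_toSet)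
    refine ⟨hfin.toFinset, fun g hg hgf => hA g f hg hf fun a ha => hgf a ?_⟩
    exact (Set.Finite.mem_toFinset _).2 ha
  let e : PolQlt ≃ D := Equiv.ofBijective ξ hξ.bij
  have hinv : Continuous e.symm := by
    have hexY : ∀ (n : ℕ) (f' : (Fin (n + 1) → Y) → Y), ∃ f : (Fin (n + 1) → ℚ) → ℚ,
        (⟨n, f'⟩ : Op Y) ∈ D → (⟨n, f⟩ : Op ℚ) ∈ PolQlt ∧ X n f = f' := by
      intro n f'
      by_cases h : (⟨n, f'⟩ : Op Y) ∈ D
      · obtain ⟨f, hf⟩ := hXsurj n f' h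
        exact ⟨f, fun _ => hf⟩
      · exact ⟨fun _ => 0, fun h' => absurd h' h⟩
    choose Z hZ using hexY
    refine continuous_of e.symm Z ?_ ?_
    · intro n f' h
      obtain ⟨h1, h2⟩ := hZ n f' h
      have h3 : e ⟨⟨n, Z n f'⟩, h1⟩ = ⟨⟨n, f'⟩, h⟩ := by
        apply Subtype.ext
        change (ξ ⟨⟨n, Z n f'⟩, h1⟩).1 = _
        rw [hX, h2]
      rw [← h3, Equiv.symm_apply_apply]
    · intro n f' h a
      obtain ⟨h1, h2⟩ := hZ n f' h
      obtain ⟨W, hW⟩ := qcont_inv (hact n) 0 (fun f g hf hg => hXinj n f g hf hg) h1 a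
      refine ⟨W, fun g' hg' hgW => ?_⟩
      obtain ⟨h3, h4⟩ := hZ n g' hg'
      refine hW _ h3 fun y hy => ?_
      rw [h4, h2]
      exact hgW y hy
  exact (Homeomorph.mk e hcont hinv).isHomeomorph

/-- **Theorem.** `Pol(ℚ; <)` is a closed clone, and every clone isomorphism from it onto a closed
clone on a countable set is a homeomorphism. -/
theorem result : IsClone PolQlt ∧ IsClosed[opTop ℚ] PolQlt ∧ AutoHomeo PolQlt :=
  ⟨isClone_PolQlt, isClosed_PolQlt, autoHomeo_PolQlt⟩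

end Pool.Agent.Results.MP_88d3f6_lc.AutoHomeoPolQ
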